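import Pool.Agent.Helper74.FP.Goals

/-!
# Project FP, packet F4
-/

set_option autoImplicit false

namespace Pool.Agent.Helper7.FP

open Pool.Agent.Helper52.Wq2 Pool.Agent.Helper61.NW Pool.Agent.Helper74.FP Monoid
open Monoid.CoprodI (Word of)
open Monoid.CoprodI.Word (equivPair rcons Pair fstIdx)

universe u

theorem conn_star {V ι : Type*} {G : SimpleGraph V} (c : V) (P : ι → Set V)
    (hP : ∀ i, Conn G (P i)) (hc : ∀ i, c ∈ P i) : Conn G ({c} ∪ ⋃ i, P i) := by
  refine ⟨⟨c, Or.inl rfl⟩, ?_⟩
  intro A hA hne hcl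
  have h1 : ∀ i, (A ∩ P i).Nonempty → P i ⊆ A := by
    rintro i ⟨x, hx⟩
    have := (hP i).2 (A ∩ P i) Set.inter_subset_right ⟨x, hx⟩ (fun a ha b hb hab =>
      ⟨hcl a ha.1 b (Or.inr (Set.mem_iUnion.2 ⟨i, hb⟩)) hab, hb⟩)
    exact fun y hy => (this hy).1
  have hcA : c ∈ A := by
    obtain ⟨x, hx⟩ := hne
    rcases hA hx with h | h
    · rw [Set.mem_singleton_iff] at h
      rwa [← h]
    · obtain ⟨i, hi⟩ := Set.mem_iUnion.1 h
      exact h1 i ⟨x, hx, hi⟩ (hc i)
  rintro y (hy | hy)
  · rw [Set.mem_singleton_iff] at hy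
    rwa [hy]
  · obtain ⟨i, hi⟩ := Set.mem_iUnion.1 hy
    exact h1 i ⟨c, hcA, hc i⟩ hi

section

variable {ι : Type} {A B : ι → Type u} [∀ i, Group (A i)] [∀ i, Group (B i)]

/-- The map on words given by maps of the letters. -/
def mapW (r : ∀ i, A i → B i) (hr : ∀ i a, a ≠ 1 → r i a ≠ 1) (w : Word A) : Word B where
  toList := w.toList.map fun l => ⟨l.1, r l.1 l.2⟩
  ne_one := by
    intro l hl
    rw [List.mem_map] at hl
    obtain ⟨l', hl', rfl⟩ := hl
    exact hr _ _ (w.ne_one l' hl')
  chain_ne := by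
    rw [List.isChain_map]
    exact w.chain_ne

theorem fstIdx_mapW (r : ∀ i, A i → B i) (hr : ∀ i a, a ≠ 1 → r i a ≠ 1) (w : Word A) :
    fstIdx (mapW r hr w) = fstIdx w := by
  unfold fstIdx mapW
  simp only [List.head?_map, Option.map_map]
  rfl

theorem mapW_inj (r : ∀ i, A i → B i) (hr : ∀ i a, a ≠ 1 → r i a ≠ 1)
    (hi : ∀ i, Function.Injective (r i)) : Function.Injective (mapW r hr) := by
  intro w w' h
  have h1 : (mapW r hr w).toList = (mapW r hr w').toList := by rw [h]
  have h2 : Function.Injective (fun l : Σ i, A i => (⟨l.1, r l.1 l.2⟩ : Σ i, B i)) := by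
    rintro ⟨i, a⟩ ⟨j, b⟩ hab
    simp only [Sigma.mk.injEq] at hab
    obtain ⟨rfl, hab⟩ := hab
    rw [hi i (eq_of_heq hab)]
  exact Word.ext (List.map_injective_iff.2 h2 h1)

variable [DecidableEq ι] [∀ i, DecidableEq (A i)] [∀ i, DecidableEq (B i)]

theorem mapW_rcons (r : ∀ i, A i → B i) (hr : ∀ i a, a ≠ 1 → r i a ≠ 1) (h1 : ∀ i, r i 1 = 1)
    {i : ι} (p : Pair A i) : mapW r hr (rcons p) =
      rcons ⟨r i p.head, mapW r hr p.tail, by rw [fstIdx_mapW]; exact p.fstIdx_ne⟩ := by
  by_cases h : p.head = 1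
  · have e1 : r i p.head = 1 := by rw [h, h1]
    unfold rcons
    rw [dif_pos h, dif_pos e1]
  · have e1 : r i p.head ≠ 1 := hr i _ h
    unfold rcons
    rw [dif_neg h, dif_neg e1]
    rfl

theorem fstIdx_of_head {i : ι} {y : Word B} (h : (equivPair i y).head ≠ 1) :
    fstIdx y = some i := by
  have e1 : y = rcons (equivPair i y) := ((equivPair i).symm_apply_apply y).symm
  rw [e1]
  unfold rcons
  rw [dif_neg h]
  exact CoprodI.Word.fstIdx_cons _ _ _ _

theorem eq_tail {i : ι} {y : Word B} (h : (equivPair i y).head = 1) :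
    y = (equivPair i y).tail := by
  have e1 : y = rcons (equivPair i y) := ((equivPair i).symm_apply_apply y).symm
  conv_lhs => rw [e1]
  unfold rcons
  rw [dif_pos h]

end

theorem adjB {ι : Type} {B : ι → Type u} [∀ i, Group (B i)] (T : ∀ i, Set (B i)) {i : ι}
    {b b' : B i} (h : (cayL (T i)).Adj b b') (P : CoprodI B) :
    (cayL (US T)).Adj (of b * P) (of b' * P) := by
  unfold cayL at h ⊢
  rw [SimpleGraph.fromRel_adj] at h ⊢
  refine ⟨fun he => h.1 (CoprodI.of_injective i (mul_right_cancel he)), ?_⟩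
  rcases h.2 with h2 | h2
  · left
    refine ⟨i, _, h2, ?_⟩
    rw [mul_inv_rev, map_mul, map_inv]
    group
  · right
    refine ⟨i, _, h2, ?_⟩
    rw [mul_inv_rev, map_mul, map_inv]
    group

/-- **F4.** -/
theorem f4 : F4Stmt.{u} := by
  intro ι A B _ _ S T V hS hT hM hV1
  classical
  -- representatives
  have hdis : ∀ i a a' b, b ∈ V i a → b ∈ V i a' → a = a' := fun i a a' b h1 h2 =>
    (hM i).2.1 a a' b h1 h2
  choose r₀ hr₀ using fun i a => ((hM i).1 a).1
  let r : ∀ i, A i → B i := fun i a => if a = 1 then 1 else r₀ i a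
  have r1 : ∀ i, r i 1 = 1 := fun i => if_pos rfl
  have rm : ∀ i a, r i a ∈ V i a := by
    intro i a
    by_cases h : a = 1
    · rw [h, r1]
      exact hV1 i
    · change (if a = 1 then 1 else r₀ i a) ∈ V i a
      rw [if_neg h]
      exact hr₀ i a
  have rne : ∀ i a, a ≠ 1 → r i a ≠ 1 := by
    intro i a ha h
    apply ha
    refine hdis i a 1 1 ?_ (hV1 i)
    rw [← h]
    exact rm i a
  have rinj : ∀ i, Function.Injective (r i) := by
    intro i a a' h
    refine hdis i a a' (r i a) (rm i a) ?_
    rw [h]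
    exact rm i a'
  let f : Word A → Word B := mapW r rne
  have finj : Function.Injective f := mapW_inj r rne rinj
  -- the relation
  let Q : ι → Word A → Word B → Prop := fun i w y =>
    (equivPair i y).head ∈ V i (equivPair i w).head ∧ (equivPair i y).tail = f (equivPair i w).tail
  have fpair : ∀ i w, f w = rcons (⟨r i (equivPair i w).head, f (equivPair i w).tail,
      by rw [fstIdx_mapW]; exact (equivPair i w).fstIdx_ne⟩ : Pair B i) := by
    intro i w
    have e1 : w = rcons (equivPair i w) := ((equivPair i).symm_apply_apply w).symm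
    conv_lhs => rw [e1]
    exact mapW_rcons r rne r1 _
  have q1 : ∀ i w, Q i w (f w) := by
    intro i w
    have e1 : equivPair i (f w) = (⟨r i (equivPair i w).head, f (equivPair i w).tail,
        by rw [fstIdx_mapW]; exact (equivPair i w).fstIdx_ne⟩ : Pair B i) := by
      rw [fpair i w]
      exact (equivPair i).apply_symm_apply _
    change (equivPair i (f w)).head ∈ _ ∧ (equivPair i (f w)).tail = _
    rw [e1]
    exact ⟨rm i _, rfl⟩
  have q2 : ∀ i w w' y, Q i w y → Q i w' y → w = w' := by
    rintro i w w' y ⟨a1, a2⟩ ⟨b1, b2⟩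
    apply (equivPair i).injective
    apply CoprodI.Word.Pair.ext
    · exact hdis i _ _ _ a1 b1
    · exact finj (a2.symm.trans b2)
  have q0 : ∀ i w y, Q i w y → (equivPair i y).head = 1 → y = f w := by
    rintro i w y ⟨a1, a2⟩ h
    have e1 : (equivPair i w).head = 1 := hdis i _ _ 1 (by rw [← h]; exact a1) (hV1 i)
    rw [eq_tail h, a2, ← eq_tail e1]
  have q3 : ∀ i j w w' y, Q i w y → Q j w' y → w = w' := by
    intro i j w w' y hi hj
    by_cases hij : i = j
    · subst hij
      exact q2 i w w' y hi hj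
    by_cases h1 : (equivPair i y).head = 1
    · have e1 := q0 i w y hi h1
      refine q2 j w w' y ?_ hj
      rw [e1]
      exact q1 j w
    by_cases h2 : (equivPair j y).head = 1
    · have e1 := q0 j w' y hj h2
      refine q2 i w w' y hi ?_
      rw [e1]
      exact q1 i w'
    · have e1 := fstIdx_of_head h1
      rw [fstIdx_of_head h2] at e1
      exact absurd (Option.some.inj e1).symm hij
  -- the parts
  let W : CoprodI A → Word A := fun g => Word.equiv g
  let part : CoprodI A → ι → Set (CoprodI B) := fun g i =>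
    (fun b => of b * (f (equivPair i (W g)).tail).prod) '' V i (equivPair i (W g)).head
  have hpart : ∀ g i x, x ∈ part g i → Q i (W g) (Word.equiv x) := by
    rintro g i _ ⟨b, hb, rfl⟩
    have e1 : Word.equiv (of b * (f (equivPair i (W g)).tail).prod) =
        rcons (⟨b, f (equivPair i (W g)).tail,
          by rw [fstIdx_mapW]; exact (equivPair i (W g)).fstIdx_ne⟩ : Pair B i) := by
      apply Word.equiv.symm.injective
      rw [Equiv.symm_apply_apply]
      exact (CoprodI.Word.prod_rcons (⟨b, f (equivPair i (W g)).tail,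
          by rw [fstIdx_mapW]; exact (equivPair i (W g)).fstIdx_ne⟩ : Pair B i)).symm
    have e2 : equivPair i (Word.equiv (of b * (f (equivPair i (W g)).tail).prod)) =
        (⟨b, f (equivPair i (W g)).tail,
          by rw [fstIdx_mapW]; exact (equivPair i (W g)).fstIdx_ne⟩ : Pair B i) := by
      rw [e1]
      exact (equivPair i).apply_symm_apply _
    change (equivPair i _).head ∈ _ ∧ (equivPair i _).tail = _
    rw [e2]
    exact ⟨hb, rfl⟩
  have hcen : ∀ g i, (f (W g)).prod ∈ part g i := by
    intro g i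
    refine ⟨r i (equivPair i (W g)).head, rm i _, ?_⟩
    change of (r i (equivPair i (W g)).head) * (f (equivPair i (W g)).tail).prod = (f (W g)).prod
    rw [fpair i (W g), CoprodI.Word.prod_rcons]
  refine ⟨fun g => {(f (W g)).prod} ∪ ⋃ i, part g i, ?_, ?_, ?_⟩
  · intro g
    refine conn_star _ _ (fun i => ?_) (hcen g)
    exact ((hM i).1 _).image _ fun a _ b _ hab => Or.inr (adjB T hab _)
  · -- disjointness
    have key : ∀ g x, x ∈ ({(f (W g)).prod} ∪ ⋃ i, part g i : Set (CoprodI B)) →
        Word.equiv x = f (W g) ∨ ∃ i, Q i (W g) (Word.equiv x) := by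
      rintro g x (hx | hx)
      · left
        rw [Set.mem_singleton_iff] at hx
        rw [hx]
        exact Word.equiv.apply_symm_apply _
      · right
        obtain ⟨i, hi⟩ := Set.mem_iUnion.1 hx
        exact ⟨i, hpart g i x hi⟩
    intro g g' x hx hx'
    apply Word.equiv.injective
    change W g = W g'
    rcases key g x hx with h1 | ⟨i, h1⟩ <;> rcases key g' x hx' with h2 | ⟨j, h2⟩
    · exact finj (h1.symm.trans h2)
    · refine q2 j _ _ _ ?_ h2
      rw [h1]
      exact q1 j _
    · refine q2 i _ _ _ h1 ?_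
      rw [h2]
      exact q1 i _
    · exact q3 i j _ _ _ h1 h2
  · -- edges
    have key : ∀ g g' : CoprodI A, g' * g⁻¹ ∈ US S →
        ∃ a ∈ ({(f (W g)).prod} ∪ ⋃ i, part g i : Set (CoprodI B)),
        ∃ b ∈ ({(f (W g')).prod} ∪ ⋃ i, part g' i : Set (CoprodI B)),
          (cayL (US T)).Adj a b := by
      rintro g g' ⟨i, s, hs, hg⟩
      have e0 : g' = of s * g := by rw [← hg]; group
      have e1 : W g' = of s • W g := by
        change Word.equiv g' = of s • Word.equiv g
        rw [e0]
        exact mul_smul (of s) g _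
      have e2 : equivPair i (W g') = ⟨s * (equivPair i (W g)).head, (equivPair i (W g)).tail,
          (equivPair i (W g)).fstIdx_ne⟩ := by
        rw [e1]
        exact CoprodI.Word.equivPair_smul_same s (W g)
      have e3 : (cayL (S i)).Adj (equivPair i (W g)).head (equivPair i (W g')).head := by
        rw [e2]
        unfold cayL
        rw [SimpleGraph.fromRel_adj]
        refine ⟨fun h => ?_, Or.inl ?_⟩
        · have : s = 1 := by
            have h5 : s * (equivPair i (W g)).head = 1 * (equivPair i (W g)).head := by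
              rw [one_mul]; exact h.symm
            exact mul_right_cancel h5
          exact (hS i).2.2 (this ▸ hs)
        · change s * (equivPair i (W g)).head * (equivPair i (W g)).head⁻¹ ∈ S i
          rwa [mul_inv_cancel_right]
      obtain ⟨b, hb, b', hb', hbb⟩ := (hM i).2.2 _ _ e3
      have e4 : (equivPair i (W g')).tail = (equivPair i (W g)).tail := by rw [e2]
      refine ⟨of b * (f (equivPair i (W g)).tail).prod,
        Or.inr (Set.mem_iUnion.2 ⟨i, b, hb, rfl⟩),
        of b' * (f (equivPair i (W g')).tail).prod,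
        Or.inr (Set.mem_iUnion.2 ⟨i, b', hb', rfl⟩), ?_⟩
      rw [e4]
      exact adjB T hbb _
    intro g g' hgg
    unfold cayL at hgg
    rw [SimpleGraph.fromRel_adj] at hgg
    rcases hgg.2 with h | h
    · exact key g g' h
    · obtain ⟨a, ha, b, hb, hab⟩ := key g' g h
      exact ⟨b, hb, a, ha, hab.symm⟩

end Pool.Agent.Helper7.FP
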